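import Pool.Agent.Q215.TD.Stm

/-!
# Project TD: Baire category and measurability
-/

set_option autoImplicit false

namespace Pool.Agent.Q285.TD

open Filter Topology Pool.Agent.Q215.TD

theorem cont_sq : Continuous Q215.TD.sq := by
  unfold Q215.TD.sq
  fun_prop

theorem sq_zero : Q215.TD.sq 0 = 1 / 4 := by
  unfold Q215.TD.sq
  norm_num

theorem sq_one : Q215.TD.sq 1 = 3 / 4 := by
  unfold Q215.TD.sq
  norm_num

theorem exists_far (s : ℝ) : ∃ c : ℝ, 1 / 5 < |s - Q215.TD.sq c| := by
  rcases le_total s (1 / 2) with h | h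
  · refine ⟨1, ?_⟩
    rw [sq_one, abs_sub_comm]
    exact lt_of_lt_of_le (by linarith) (le_abs_self _)
  · refine ⟨0, ?_⟩
    rw [sq_zero]
    exact lt_of_lt_of_le (by linarith) (le_abs_self _)

/-- The sequences which are far from `x` at a late time. -/
def Far (x : ℕ → ℝ) (a : ℕ) : Set (ℕ → ℝ) := {y | ∃ j, a ≤ j ∧ 1 / 5 < |Q215.TD.sq (x j) - Q215.TD.sq (y j)|}

theorem far_open (x : ℕ → ℝ) (a : ℕ) : IsOpen (Far x a) := by
  have h1 : Far x a = ⋃ j, ⋃ (_ : a ≤ j), {y | 1 / 5 < |Q215.TD.sq (x j) - Q215.TD.sq (y j)|} := by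
    ext y
    simp only [Far, Set.mem_iUnion]
    constructor
    · rintro ⟨j, h2, h3⟩
      exact ⟨j, h2, h3⟩
    · rintro ⟨j, h2, h3⟩
      exact ⟨j, h2, h3⟩
  rw [h1]
  refine isOpen_iUnion fun j => isOpen_iUnion fun _ => ?_
  refine isOpen_lt continuous_const ?_
  exact (continuous_const.sub (cont_sq.comp (continuous_apply j))).abs

theorem far_dense (x : ℕ → ℝ) (a : ℕ) : Dense (Far x a) := by
  classical
  rw [dense_iff_inter_open]
  rintro V hV ⟨y₀, hy₀⟩
  rw [isOpen_pi_iff] at hV
  obtain ⟨I, u, hu, hsub⟩ := hV y₀ hy₀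
  set j := a + I.sup id + 1 with hj
  have hjI : j ∉ I := by
    intro h
    have h1 : id j ≤ I.sup id := Finset.le_sup h
    simp only [id] at h1
    omega
  obtain ⟨c, hc⟩ := exists_far (Q215.TD.sq (x j))
  refine ⟨Function.update y₀ j c, hsub ?_, j, by omega, ?_⟩
  · intro i hi
    have hij : i ≠ j := by
      rintro rfl
      exact hjI hi
    rw [Function.update_of_ne hij]
    exact (hu i hi).2
  · rw [Function.update_self]
    exact hc

theorem t_BAI : S_BAI := by
  intro C hC
  obtain ⟨x, hx⟩ := (dense_of_mem_residual hC).nonempty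
  have h1 : (⋂ a, Far x a) ∈ residual (ℕ → ℝ) := by
    rw [countable_iInter_mem]
    exact fun a => residual_of_dense_open (far_open x a) (far_dense x a)
  obtain ⟨y, hy, hy'⟩ := (dense_of_mem_residual (inter_mem hC h1)).nonempty
  refine ⟨x, hx, y, hy, fun ht => ?_⟩
  have h2 := (Metric.tendsto_nhds.1 ht (1 / 5) (by norm_num))
  obtain ⟨a, ha⟩ := eventually_atTop.1 h2
  obtain ⟨j, hj, hj'⟩ := Set.mem_iInter.1 hy' a
  have h3 := ha j hj
  rw [Real.dist_eq, sub_zero] at h3
  exact absurd hj' (not_lt.2 h3.le)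

theorem t_MEA : S_MEA := by
  intro M _ _ _ _ X τ hX ev hev hinj hcont g hg
  let _ : MeasurableSpace X := borel X
  have _ : BorelSpace X := ⟨rfl⟩
  let _ : MeasurableSpace M := borel M
  have _ : BorelSpace M := ⟨rfl⟩
  have hP : PolishSpace M := by
    let _ := TopologicalSpace.metrizableSpaceMetric M
    infer_instance
  obtain ⟨D, hDc, hDd⟩ := TopologicalSpace.exists_countable_dense M
  have hD : Countable D := hDc.to_subtype
  let e : X → (D → M) := fun f p => ev f p.1
  have he : Continuous e := continuous_pi fun p => hcont p.1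
  have hei : Function.Injective e := by
    intro f f' h
    apply hinj
    exact Continuous.ext_on hDd (hev f) (hev f') fun p hp => congrFun h ⟨p, hp⟩
  have h1 : MeasurableEmbedding e := he.measurableEmbedding hei
  rw [← h1.measurable_comp_iff]
  have h2 : Continuous (e ∘ g) := continuous_pi fun p => hg p.1
  exact h2.measurable

end Pool.Agent.Q285.TD
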