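import Pool.Agent.Q215.TD.Stm

/-!
# Project TD: smallness of all derivatives for a small parameter
-/

set_option autoImplicit false

namespace Pool.Agent.Q285.TD

open Filter Topology Pool.Agent.Q215.TD
open scoped ContDiff

theorem t_ITF : S_ITF := by
  intro n K hK h0 r hr m δ hδ
  have hQ : ∀ a : ℝ, ∀ w : W n, iteratedFDeriv ℝ m (fun w => K (a, w)) w =
      (iteratedFDeriv ℝ m K (a, w)).compContinuousLinearMap
        (fun _ => ContinuousLinearMap.inr ℝ ℝ (W n)) := by
    intro a w
    have h1 : (fun w => K (a, w)) = (fun z => K (z + ((a, 0) : ℝ × W n))) ∘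
        (ContinuousLinearMap.inr ℝ ℝ (W n)) := by
      funext w
      simp
    have h2 : ContDiff ℝ ∞ (fun z => K (z + ((a, 0) : ℝ × W n))) :=
      hK.comp (contDiff_id.add contDiff_const)
    rw [h1, ContinuousLinearMap.iteratedFDeriv_comp_right _ h2 w (by exact_mod_cast le_top),
      iteratedFDeriv_comp_add_right]
    simp
  have hc : Continuous fun q : ℝ × W n => iteratedFDeriv ℝ m (fun w => K (q.1, w)) q.2 := by
    have h1 : (fun q : ℝ × W n => iteratedFDeriv ℝ m (fun w => K (q.1, w)) q.2) =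
        fun q => (ContinuousMultilinearMap.compContinuousLinearMapL
          (fun _ : Fin m => ContinuousLinearMap.inr ℝ ℝ (W n))) (iteratedFDeriv ℝ m K q) := by
      funext q
      exact hQ q.1 q.2
    rw [h1]
    exact (ContinuousLinearMap.continuous _).comp
      (hK.continuous_iteratedFDeriv (by exact_mod_cast le_top))
  have hz : ∀ w : W n, iteratedFDeriv ℝ m (fun w => K (0, w)) w = 0 := by
    intro w
    have h1 : (fun w => K (0, w)) = fun _ => 0 := by
      funext w
      exact h0 w
    rw [h1, iteratedFDeriv_fun_zero]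
    rfl
  have hopen : IsOpen {q : ℝ × W n | ‖iteratedFDeriv ℝ m (fun w => K (q.1, w)) q.2‖ < δ} :=
    isOpen_lt hc.norm continuous_const
  obtain ⟨u, v, hu, hv, h0u, hKv, huv⟩ := generalized_tube_lemma
    (isCompact_singleton (x := (0 : ℝ))) (isCompact_closedBall (0 : W n) (r + 1)) hopen (by
      rintro ⟨a, w⟩ ⟨ha, -⟩
      have ha' : a = 0 := ha
      subst ha'
      show ‖iteratedFDeriv ℝ m (fun w => K (0, w)) w‖ < δ
      rw [hz w, norm_zero]
      exact hδ)
  obtain ⟨η, hη, hη'⟩ := Metric.isOpen_iff.1 hu 0 (h0u rfl)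
  refine ⟨η, hη, fun a ha w => ?_⟩
  have hau : a ∈ u := hη' (by
    rw [Metric.mem_ball, Real.dist_eq, sub_zero]
    exact ha)
  rcases le_or_gt ‖w‖ (r + 1) with hw | hw
  · have h1 : ((a, w) : ℝ × W n) ∈ u ×ˢ v := ⟨hau, hKv (by
      rw [mem_closedBall_zero_iff]
      exact hw)⟩
    exact le_of_lt (huv h1)
  · have h1 : (fun w => K (a, w)) =ᶠ[𝓝 w] fun _ => 0 := by
      have h2 : ∀ᶠ w' in 𝓝 w, r < ‖w'‖ :=
        (isOpen_lt continuous_const continuous_norm).mem_nhds (by
          show r < ‖w‖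
          linarith)
      exact h2.mono fun w' hw' => hr a w' hw'.le
    have h3 := (Filter.EventuallyEq.iteratedFDeriv ℝ h1 m).eq_of_nhds
    rw [h3, iteratedFDeriv_fun_zero]
    simpa using hδ.le

end Pool.Agent.Q285.TD
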