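import Pool.Agent.Q215.TD.Stm

/-!
# Project TD: smoothness of the twist, the sequence of periods
-/

set_option autoImplicit false

namespace Pool.Agent.Q285.TD

open Filter Topology Pool.Agent.Q215.TD
open scoped ContDiff

theorem t_TWS : S_TWS := by
  intro n ρ _
  have h1 : ContDiff ℝ ∞ fun p : ℝ × W n => qn p.2 := by
    unfold qn
    exact ((contDiff_fst.comp contDiff_snd).norm_sq ℝ).add
      ((contDiff_snd.comp contDiff_snd).norm_sq ℝ)
  have h2 : ContDiff ℝ ∞ fun p : ℝ × W n => bump ρ p.2 := by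
    unfold bump
    exact Real.smoothTransition.contDiff.comp
      (contDiff_const.sub ((contDiff_const.mul h1).div_const _))
  have h3 : ContDiff ℝ ∞ fun p : ℝ × W n =>
      ((2 * Real.pi * (p.1 * bump ρ p.2) : ℝ) : ℂ) :=
    Complex.ofRealCLM.contDiff.comp (contDiff_const.mul (contDiff_fst.mul h2))
  have h4 : ContDiff ℝ ∞ fun p : ℝ × W n =>
      Complex.exp (((2 * Real.pi * (p.1 * bump ρ p.2) : ℝ) : ℂ) * Complex.I) * p.2.1 :=
    (Complex.contDiff_exp.comp (h3.mul contDiff_const)).mul (contDiff_fst.comp contDiff_snd)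
  unfold dtw tw
  exact (h4.prodMk (contDiff_snd.comp contDiff_snd)).sub contDiff_snd

theorem rad_pos (k : ℕ) : 0 < rad k := by
  unfold rad
  positivity

theorem le_qn {n : ℕ} (w : W n) : ‖w‖ ^ 2 ≤ qn w := by
  unfold qn
  rw [Prod.norm_def]
  rcases le_total ‖w.1‖ ‖w.2‖ with h | h
  · rw [max_eq_right h]
    have := sq_nonneg ‖w.1‖
    linarith
  · rw [max_eq_left h]
    have := sq_nonneg ‖w.2‖
    linarith

theorem dtw_out {n : ℕ} {ρ : ℝ} (hρ : 0 < ρ) (a : ℝ) {w : W n} (hw : ρ ≤ ‖w‖) :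
    dtw ρ a w = 0 := by
  have h1 : ρ ^ 2 ≤ qn w := (pow_le_pow_left₀ hρ.le hw 2).trans (le_qn w)
  have h2 : bump ρ w = 0 := by
    unfold bump
    refine Real.smoothTransition.zero_of_nonpos ?_
    have h3 : 1 ≤ qn w / ρ ^ 2 := by
      rw [le_div_iff₀ (by positivity)]
      linarith
    have h4 : 2 * qn w / ρ ^ 2 = 2 * (qn w / ρ ^ 2) := by ring
    rw [h4]
    linarith
  unfold dtw tw
  rw [h2]
  simp

theorem dtw_zero {n : ℕ} (ρ : ℝ) (w : W n) : dtw ρ 0 w = 0 := by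
  unfold dtw tw
  simp

theorem t_GOOD : S_GOOD := by
  intro hITF hTWS n
  have key : ∀ k : ℕ, ∀ᶠ N : ℕ in atTop, 2 ≤ N ∧ ∀ m ≤ k, ∀ e : ℝ, (e = 1 ∨ e = -1) →
      ∀ w : W n, ‖iteratedFDeriv ℝ m (dtw (rad k) (e / N)) w‖ ≤ (1 / 2) ^ k := by
    intro k
    have h1 : ∀ m ∈ Set.Iic k, ∀ᶠ N : ℕ in atTop, ∀ e : ℝ, (e = 1 ∨ e = -1) →
        ∀ w : W n, ‖iteratedFDeriv ℝ m (dtw (rad k) (e / N)) w‖ ≤ (1 / 2) ^ k := by
      intro m _
      obtain ⟨η, hη, hη'⟩ := hITF n (fun p : ℝ × W n => dtw (rad k) p.1 p.2)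
        (hTWS n (rad k) (rad_pos k)) (fun w => dtw_zero _ w) (rad k)
        (fun a w hw => dtw_out (rad_pos k) a hw) m ((1 / 2) ^ k) (by positivity)
      have h2 : ∀ᶠ N : ℕ in atTop, 1 / (N : ℝ) < η :=
        (tendsto_one_div_atTop_nhds_zero_nat (𝕜 := ℝ)).eventually (gt_mem_nhds hη)
      filter_upwards [h2] with N hN e he w
      refine hη' (e / N) ?_ w
      have h3 : |e| = 1 := by
        rcases he with rfl | rfl <;> simp
      rw [abs_div, h3, Nat.abs_cast]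
      exact hN
    have h2 := (Filter.eventually_all_finite (Set.finite_Iic k)).2 h1
    filter_upwards [h2, eventually_ge_atTop 2] with N hN hN2
    exact ⟨hN2, fun m hm => hN m hm⟩
  obtain ⟨N, hN, hN'⟩ := extraction_forall_of_eventually key
  exact ⟨N, ⟨hN, fun k => (hN' k).1, fun k => (hN' k).2⟩⟩

end Pool.Agent.Q285.TD
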